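import Pool.Agent.V11246.IGroup

set_option autoImplicit false

/-!
# Surgeries on the cyclic branched covers of P(3, -3, 1)

Let `c` be an unknotted circle around the third band of the genus one pretzel surface of the
pretzel knot `P(3,-3,1)`.  In the `n`-fold cyclic branched cover of `P(3,-3,1)` it lifts to a
link with `n` components; `r i` and `w i` (`i` modulo `n`) are the lifts of its meridian and of
its longitude.  Surgery on this link with relations `r i ^ (den (γ i)) = w i ^ (num (γ i))`
gives closed manifolds `Y(γ)` for all `γ : ZMod n → ℚ`; for a constant integer `γ i = k` this is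
the `n`-fold cyclic branched cover of the pretzel knot `P(3,-3,2k+1)`, an L-space by a theorem of
Issa and Turner.

We prove that the fundamental groups of all `Y(γ)` have no nontrivial homomorphisms to
left-orderable groups.

Idea.  Put `A i = x i * x i * v i * v i`, `B i = (r i * v i)⁻¹`, `C i = A i * B i`; then
`A i = A (i+1) * (x i)⁻¹ * A (i+1) * x i`.  Let the group act by order automorphisms on a complete
linear order.  If there is a fixed point of `A i` between `y` and `C i y > y` then this is also
true for `i + 1`, and the greatest fixed point of `A i` below `C i y` increases with `i`: a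
contradiction to the periodicity.  So `C i` fixes all fixed points of `A i`, hence `x i` fixes all
fixed points of `A (i+1)`; now `A i y > A (i+1) y` where `A (i+1) y > y`, and again the periodicity
shows that everything is fixed.
-/

namespace Pool.Agent.Results.MP_9ae2f3_gt.IssaTurnerSurgeries

/-- A nontrivial group is left-orderable if it carries a strict total order that is invariant
under left multiplication. -/
def LeftOrderable (G : Type*) [Group G] : Prop :=
  Nontrivial G ∧ ∃ lt : G → G → Prop, IsStrictTotalOrder G lt ∧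
    ∀ a b c : G, lt a b ↔ lt (c * a) (c * b)

/-- `G` has no nontrivial homomorphism to a left-orderable group; in particular it is not
left-orderable. -/
theorem not_lo {G : Type} [Group G]
    (h : ∀ (H : Type) [Group H], LeftOrderable H → ∀ f : G →* H, ∀ g, f g = 1) :
    ¬ LeftOrderable G := by
  intro hG
  obtain ⟨a, b, hab⟩ := hG.1
  have key := h G hG (MonoidHom.id _)
  exact hab ((key a).trans (key b).symm)

theorem lo_order {H : Type*} [Group H] (hH : LeftOrderable H) :
    ∃ _ : LinearOrder H, ∀ a b c : H, a ≤ b ↔ c * a ≤ c * b := by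
  classical
  obtain ⟨_, lt, hlt, hinv⟩ := hH
  refine ⟨linearOrderOfSTO lt, ?_⟩
  intro a b c
  show (a = b ∨ lt a b) ↔ (c * a = c * b ∨ lt (c * a) (c * b))
  rw [mul_right_inj, ← hinv]

/-- The generators of the surgery groups: `x i, v i, w i, r i` for `i` modulo `n`. -/
inductive Gen (n : ℕ) : Type
  | x (i : ZMod n)
  | v (i : ZMod n)
  | w (i : ZMod n)
  | r (i : ZMod n)

section words
variable {n : ℕ}

/-- generator `x i` -/
def x (i : ZMod n) : FreeGroup (Gen n) := FreeGroup.of (Gen.x i)
/-- generator `v i` -/
def v (i : ZMod n) : FreeGroup (Gen n) := FreeGroup.of (Gen.v i)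
/-- generator `w i` -/
def w (i : ZMod n) : FreeGroup (Gen n) := FreeGroup.of (Gen.w i)
/-- generator `r i` -/
def r (i : ZMod n) : FreeGroup (Gen n) := FreeGroup.of (Gen.r i)

/-- `A i = x i * x i * v i * v i` -/
def A (i : ZMod n) : FreeGroup (Gen n) := x i * x i * v i * v i
/-- `B i = (r i * v i)⁻¹` -/
def B (i : ZMod n) : FreeGroup (Gen n) := (r i * v i)⁻¹

end words

/-- The relators with index `i`; the last one is that of the Dehn filling. -/
def surgeryRelators {n : ℕ} (γ : ZMod n → ℚ) (i : ZMod n) : Set (FreeGroup (Gen n)) :=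
  {x i * v i * w i, w i * r i * (w i)⁻¹ * (r i)⁻¹, A (i + 1) * (A i * w i)⁻¹,
    B (i + 1) * (x i * B i)⁻¹, r i ^ (γ i).den * (w i ^ (γ i).num)⁻¹}

/-- The fundamental group of `Y(γ)`. -/
abbrev SurgeryGroup (n : ℕ) (γ : ZMod n → ℚ) : Type :=
  PresentedGroup (⋃ i : ZMod n, surgeryRelators γ i)

theorem surgery_trivial {n : ℕ} (hn : 0 < n) (γ : ZMod n → ℚ)
    {H : Type*} [Group H] (hH : LeftOrderable H) (f : SurgeryGroup n γ →* H)
    (g : SurgeryGroup n γ) : f g = 1 := by
  obtain ⟨_, hinv⟩ := lo_order hH
  set rels := ⋃ i : ZMod n, surgeryRelators γ i with hrels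
  set μ : FreeGroup (Gen n) →* H := f.comp (PresentedGroup.mk rels) with hμ
  have h1 : ∀ i, ∀ u ∈ surgeryRelators γ i, μ u = 1 := by
    intro i u hu
    have : PresentedGroup.mk rels u = 1 :=
      PresentedGroup.one_of_mem (Set.mem_iUnion.mpr ⟨i, hu⟩)
    rw [hμ, MonoidHom.comp_apply, this, map_one]
  have R : Pool.Agent.V11246.IT.IRel (fun i => μ (x i)) (fun i => μ (v i)) (fun i => μ (w i))
      (fun i => μ (r i)) (fun i => (γ i).num) (fun i => (γ i).den) := by
    refine ⟨?_, ?_, ?_, ?_, ?_⟩
    · intro i
      have := h1 i (x i * v i * w i) (by simp [surgeryRelators])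
      rwa [map_mul, map_mul] at this
    · intro i; exact (γ i).den_pos
    · intro i
      have := h1 i (r i ^ (γ i).den * (w i ^ (γ i).num)⁻¹) (by simp [surgeryRelators])
      rw [map_mul, map_inv, mul_inv_eq_one, map_pow, map_zpow] at this
      exact this
    · intro i
      have := h1 i (A (i + 1) * (A i * w i)⁻¹) (by simp [surgeryRelators])
      rw [map_mul, map_inv, mul_inv_eq_one] at this
      simpa only [A, map_mul] using this
    · intro i
      have := h1 i (B (i + 1) * (x i * B i)⁻¹) (by simp [surgeryRelators])
      rw [map_mul, map_inv, mul_inv_eq_one] at this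
      simpa only [B, map_mul, map_inv] using this
  have triv := fun i => Pool.Agent.V11246.IT.rel_trivial hinv hn R i
  have hgen : ∀ a : Gen n, μ (FreeGroup.of a) = 1 := by
    intro a
    cases a with
    | x i => exact (triv i).1
    | v i => exact (triv i).2.1
    | w i => exact (triv i).2.2.1
    | r i => exact (triv i).2.2.2
  have hμ1 : μ = 1 := FreeGroup.ext_hom _ _ (fun a => hgen a)
  obtain ⟨u, rfl⟩ := QuotientGroup.mk_surjective g
  have h3 : μ u = f (QuotientGroup.mk u) := rfl
  rw [← h3, hμ1]
  rfl

/-- For all `n ≥ 1` and all `γ : ZMod n → ℚ` the group of `Y(γ)` is not left-orderable and has no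
nontrivial homomorphism to a left-orderable group. -/
theorem result (n : ℕ) (hn : 0 < n) (γ : ZMod n → ℚ) :
    ¬ LeftOrderable (SurgeryGroup n γ) ∧
    ∀ (H : Type) [Group H], LeftOrderable H →
      ∀ f : SurgeryGroup n γ →* H, ∀ g, f g = 1 := by
  have h : ∀ (H : Type) [Group H], LeftOrderable H →
      ∀ f : SurgeryGroup n γ →* H, ∀ g, f g = 1 :=
    fun H _ hH f g => surgery_trivial hn γ hH f g
  exact ⟨not_lo h, h⟩

end Pool.Agent.Results.MP_9ae2f3_gt.IssaTurnerSurgeries
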