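import Pool.Agent.V11246.QGroup

set_option autoImplicit false

/-!
# Rational surgeries on the cyclic branched covers of the pretzel surface

## The manifolds

Let `K` be the pretzel knot `P(1,-1,1)` (an unknot) with its genus one Seifert surface (two discs
and three bands), and let `c₀, c₁, c₂` be unknotted circles around the three bands.  The `n`-fold
cyclic branched cover of `(S³, K)` is `S³`, and `c₀ ∪ c₁ ∪ c₂` lifts to a link `L` with `3 n`
components.  The group of `S³ - L` is generated by elements `x i, v i, w i, p i, q i, r i`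
(`i` modulo `n`) with the relations

* `x i * v i * w i = 1`, `[x i, p i] = [v i, q i] = [w i, r i] = 1`,
* `A (i+1) = A i * w i` and `B (i+1) = x i * B i`, where `A i = p i * x i * v i * q i` and
  `B i = (r i * q i)⁻¹`;

`x i, v i, w i` are the lifts of the longitudes of `c₀, c₁, c₂` and `p i, (q i)⁻¹, r i` those
of the meridians.  Dehn surgery on `L` adds one relation for every component.  We consider the
relations `p i ^ d = x i ^ c`, `q i ^ d = v i ^ c`, `r i ^ d = w i ^ c` where the rational number
`c / d` (in lowest terms) is in `[0,1]`, `[1,∞)`, `[0,∞)`, respectively, and may depend on `i`.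
If the three numbers are integers `p, q, r` that do not depend on `i`, this is the `n`-fold
cyclic branched cover of the pretzel knot `P(2p+1, -(2q+1), 2r+1)`.

## The theorem

All homomorphisms from these groups to left-orderable groups are trivial.

## Idea of the proof

Put `C i = A i * B i` and let the group act by order automorphisms on a complete linear order.
Suppose that `C i y > y` and that there is an `f` between `y` and `C i y` with `A i f ≤ f`.  Then
the same is true for `i + 1`, and the greatest such `f` increases with `i`: a contradiction to the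
periodicity.  So `A i y ≤ y` implies `C i y ≤ y`, and dually.  Hence `x i`, `v i`, `w i` fix all
fixed points of `A (i+1)`; and where `A (i+1) y > y` one finds `w i y < y`, so that
`A i y > A (i+1) y`, again a contradiction to the periodicity.
-/

namespace Pool.Agent.Results.MP_9ae2f3_gt.RationalPretzelSurgeries

/-- A nontrivial group is left-orderable if it carries a strict total order that is invariant
under left multiplication. -/
def LeftOrderable (G : Type*) [Group G] : Prop :=
  Nontrivial G ∧ ∃ lt : G → G → Prop, IsStrictTotalOrder G lt ∧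
    ∀ a b c : G, lt a b ↔ lt (c * a) (c * b)

/-- `G` has no nontrivial homomorphism to a left-orderable group; in particular it is not
left-orderable. -/
theorem not_lo {G : Type} [Group G]
    (h : ∀ (H : Type) [Group H], LeftOrderable H → ∀ f : G →* H, ∀ g, f g = 1) :
    ¬ LeftOrderable G := by
  intro hG
  obtain ⟨a, b, hab⟩ := hG.1
  have key := h G hG (MonoidHom.id _)
  exact hab ((key a).trans (key b).symm)

theorem lo_order {H : Type*} [Group H] (hH : LeftOrderable H) :
    ∃ _ : LinearOrder H, ∀ a b c : H, a ≤ b ↔ c * a ≤ c * b := by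
  classical
  obtain ⟨_, lt, hlt, hinv⟩ := hH
  refine ⟨linearOrderOfSTO lt, ?_⟩
  intro a b c
  show (a = b ∨ lt a b) ↔ (c * a = c * b ∨ lt (c * a) (c * b))
  rw [mul_right_inj, ← hinv]

/-- The generators: `x i, v i, w i, p i, q i, r i` for `i` modulo `n`. -/
inductive Gen (n : ℕ) : Type
  | x (i : ZMod n)
  | v (i : ZMod n)
  | w (i : ZMod n)
  | p (i : ZMod n)
  | q (i : ZMod n)
  | r (i : ZMod n)

section words
variable {n : ℕ}

/-- generator `x i` -/
def x (i : ZMod n) : FreeGroup (Gen n) := FreeGroup.of (Gen.x i)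
/-- generator `v i` -/
def v (i : ZMod n) : FreeGroup (Gen n) := FreeGroup.of (Gen.v i)
/-- generator `w i` -/
def w (i : ZMod n) : FreeGroup (Gen n) := FreeGroup.of (Gen.w i)
/-- generator `p i` -/
def p (i : ZMod n) : FreeGroup (Gen n) := FreeGroup.of (Gen.p i)
/-- generator `q i` -/
def q (i : ZMod n) : FreeGroup (Gen n) := FreeGroup.of (Gen.q i)
/-- generator `r i` -/
def r (i : ZMod n) : FreeGroup (Gen n) := FreeGroup.of (Gen.r i)

/-- `A i = p i * x i * v i * q i` -/
def A (i : ZMod n) : FreeGroup (Gen n) := p i * x i * v i * q i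
/-- `B i = (r i * q i)⁻¹` -/
def B (i : ZMod n) : FreeGroup (Gen n) := (r i * q i)⁻¹

end words

/-- The relators of the group of the link `L`, for the index `i`. -/
def linkRelators {n : ℕ} (i : ZMod n) : Set (FreeGroup (Gen n)) :=
  {x i * v i * w i, x i * p i * (x i)⁻¹ * (p i)⁻¹, v i * q i * (v i)⁻¹ * (q i)⁻¹,
    w i * r i * (w i)⁻¹ * (r i)⁻¹, A (i + 1) * (A i * w i)⁻¹, B (i + 1) * (x i * B i)⁻¹}

/-- The relators of the three Dehn fillings with index `i`. -/
def fillingRelators {n : ℕ} (α β γ : ZMod n → ℚ) (i : ZMod n) : Set (FreeGroup (Gen n)) :=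
  {p i ^ (α i).den * (x i ^ (α i).num)⁻¹, q i ^ (β i).den * (v i ^ (β i).num)⁻¹,
    r i ^ (γ i).den * (w i ^ (γ i).num)⁻¹}

/-- The fundamental group of the closed manifold obtained by surgery on the link `L` with `3 n`
components with parameters `α i`, `β i`, `γ i`. -/
abbrev SurgeryGroup (n : ℕ) (α β γ : ZMod n → ℚ) : Type :=
  PresentedGroup ((⋃ i : ZMod n, linkRelators i) ∪ ⋃ i : ZMod n, fillingRelators α β γ i)

theorem num_natAbs {c : ℚ} (hc : 0 ≤ c) : ((c.num.natAbs : ℕ) : ℤ) = c.num :=
  Int.natAbs_of_nonneg (Rat.num_nonneg.mpr hc)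

theorem le_den {c : ℚ} (h0 : 0 ≤ c) (h1 : c ≤ 1) : c.num.natAbs ≤ c.den := by
  have h2 : c.num ≤ c.den := by
    have := (Rat.le_iff (a := c) (b := 1)).mp h1
    simpa using this
  have := num_natAbs h0
  omega

theorem den_le {c : ℚ} (h1 : 1 ≤ c) : c.den ≤ c.num.natAbs := by
  have h2 : (c.den : ℤ) ≤ c.num := by
    have := (Rat.le_iff (a := 1) (b := c)).mp h1
    simpa using this
  have := num_natAbs (zero_le_one.trans h1)
  omega

theorem surgery_trivial {n : ℕ} (hn : 0 < n) {α β γ : ZMod n → ℚ}
    (hα : ∀ i, 0 ≤ α i ∧ α i ≤ 1) (hβ : ∀ i, 1 ≤ β i) (hγ : ∀ i, 0 ≤ γ i)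
    {H : Type*} [Group H] (hH : LeftOrderable H) (f : SurgeryGroup n α β γ →* H)
    (g : SurgeryGroup n α β γ) : f g = 1 := by
  obtain ⟨_, hinv⟩ := lo_order hH
  set rels := (⋃ i : ZMod n, linkRelators i) ∪ ⋃ i : ZMod n, fillingRelators α β γ i with hrels
  -- the homomorphism from the free group
  set μ : FreeGroup (Gen n) →* H := f.comp (PresentedGroup.mk rels) with hμ
  have h1 : ∀ i, ∀ u ∈ linkRelators i, μ u = 1 := by
    intro i u hu
    have : PresentedGroup.mk rels u = 1 :=
      PresentedGroup.one_of_mem (Or.inl (Set.mem_iUnion.mpr ⟨i, hu⟩))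
    rw [hμ, MonoidHom.comp_apply, this, map_one]
  have h2 : ∀ i, ∀ u ∈ fillingRelators α β γ i, μ u = 1 := by
    intro i u hu
    have : PresentedGroup.mk rels u = 1 :=
      PresentedGroup.one_of_mem (Or.inr (Set.mem_iUnion.mpr ⟨i, hu⟩))
    rw [hμ, MonoidHom.comp_apply, this, map_one]
  have hcomm : ∀ a b : FreeGroup (Gen n), μ (a * b * a⁻¹ * b⁻¹) = 1 → μ a * μ b = μ b * μ a := by
    intro a b h
    rw [map_mul, map_mul, map_mul, map_inv, map_inv, mul_inv_eq_one, mul_inv_eq_iff_eq_mul] at h
    exact h
  have hpow : ∀ (a b : FreeGroup (Gen n)) (c : ℚ), 0 ≤ c → μ (a ^ c.den * (b ^ c.num)⁻¹) = 1 →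
      μ a ^ c.den = μ b ^ c.num.natAbs := by
    intro a b c hc h
    rw [map_mul, map_inv, mul_inv_eq_one, map_pow, map_zpow, ← num_natAbs hc, zpow_natCast] at h
    exact h
  have R : Pool.Agent.V11246.QC.QRel (fun i => μ (x i)) (fun i => μ (v i)) (fun i => μ (w i))
      (fun i => μ (p i)) (fun i => μ (q i)) (fun i => μ (r i))
      (fun i => (β i).num.natAbs) (fun i => (β i).den) (fun i => (α i).num.natAbs)
      (fun i => (α i).den) (fun i => (γ i).num.natAbs) (fun i => (γ i).den) := by
    refine ⟨?_, ?_, ?_, ?_, ?_, ?_, ?_, ?_, ?_, ?_, ?_, ?_, ?_, ?_⟩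
    · intro i
      have := h1 i (x i * v i * w i) (by simp [linkRelators])
      rwa [map_mul, map_mul] at this
    · intro i
      exact hcomm _ _ (h1 i _ (by simp [linkRelators]))
    · intro i
      exact hcomm _ _ (h1 i _ (by simp [linkRelators]))
    · intro i
      exact hcomm _ _ (h1 i _ (by simp [linkRelators]))
    · intro i; exact (β i).den_pos
    · intro i; exact den_le (hβ i)
    · intro i
      exact hpow _ _ _ (zero_le_one.trans (hβ i)) (h2 i _ (by simp [fillingRelators]))
    · intro i; exact (α i).den_pos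
    · intro i; exact le_den (hα i).1 (hα i).2
    · intro i
      exact hpow _ _ _ (hα i).1 (h2 i _ (by simp [fillingRelators]))
    · intro i; exact (γ i).den_pos
    · intro i
      exact hpow _ _ _ (hγ i) (h2 i _ (by simp [fillingRelators]))
    · intro i
      have := h1 i (A (i + 1) * (A i * w i)⁻¹) (by simp [linkRelators])
      rw [map_mul, map_inv, mul_inv_eq_one] at this
      simpa only [A, map_mul] using this
    · intro i
      have := h1 i (B (i + 1) * (x i * B i)⁻¹) (by simp [linkRelators])
      rw [map_mul, map_inv, mul_inv_eq_one] at this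
      simpa only [B, map_mul, map_inv] using this
  have triv := fun i => Pool.Agent.V11246.QC.rel_trivial hinv hn R i
  have hgen : ∀ a : Gen n, μ (FreeGroup.of a) = 1 := by
    intro a
    cases a with
    | x i => exact (triv i).1
    | v i => exact (triv i).2.1
    | w i => exact (triv i).2.2.1
    | p i => exact (triv i).2.2.2.1
    | q i => exact (triv i).2.2.2.2.1
    | r i => exact (triv i).2.2.2.2.2
  have hμ1 : μ = 1 := FreeGroup.ext_hom _ _ (fun a => hgen a)
  obtain ⟨u, rfl⟩ := QuotientGroup.mk_surjective g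
  have h3 : μ u = f (QuotientGroup.mk u) := rfl
  rw [← h3, hμ1]
  rfl

/-- For all `n ≥ 1` and all rational `α i ∈ [0,1]`, `β i ≥ 1`, `γ i ≥ 0` (`i` modulo `n`) the
surgery group is not left-orderable and has no nontrivial homomorphism to a left-orderable
group. -/
theorem result (n : ℕ) (hn : 0 < n) (α β γ : ZMod n → ℚ)
    (hα : ∀ i, 0 ≤ α i ∧ α i ≤ 1) (hβ : ∀ i, 1 ≤ β i) (hγ : ∀ i, 0 ≤ γ i) :
    ¬ LeftOrderable (SurgeryGroup n α β γ) ∧
    ∀ (H : Type) [Group H], LeftOrderable H →
      ∀ f : SurgeryGroup n α β γ →* H, ∀ g, f g = 1 := by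
  have h : ∀ (H : Type) [Group H], LeftOrderable H →
      ∀ f : SurgeryGroup n α β γ →* H, ∀ g, f g = 1 :=
    fun H _ hH f g => surgery_trivial hn hα hβ hγ hH f g
  exact ⟨not_lo h, h⟩

end Pool.Agent.Results.MP_9ae2f3_gt.RationalPretzelSurgeries
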